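import Pool.Agent.THX.Stmts

/-!
# Squad THX: module HEN (uniqueness of the solutions with a given residue)
-/

namespace Pool.Agent.THX.H65

open Pool.Agent.THX Matrix

noncomputable section

section

variable {A : Type} [CommRing A]

theorem taylor_mem {r : ℕ} (I : Ideal A) (X Y : Fin r → A) (h : ∀ i, Y i - X i ∈ I)
    (Q : MvPolynomial (Fin r) ℤ) :
    MvPolynomial.aeval Y Q - MvPolynomial.aeval X Q -
      ∑ j, MvPolynomial.aeval X (MvPolynomial.pderiv j Q) * (Y j - X j) ∈ I ^ 2 := by
  classical
  induction Q using MvPolynomial.induction_on with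
  | C a =>
    have h0 : MvPolynomial.aeval Y (MvPolynomial.C a : MvPolynomial (Fin r) ℤ) -
        MvPolynomial.aeval X (MvPolynomial.C a) -
        ∑ j, MvPolynomial.aeval X (MvPolynomial.pderiv j (MvPolynomial.C a)) * (Y j - X j) = 0 := by
      rw [MvPolynomial.aeval_C, MvPolynomial.aeval_C, sub_self, zero_sub, neg_eq_zero]
      refine Finset.sum_eq_zero fun j _ => ?_
      rw [MvPolynomial.pderiv_C, map_zero, zero_mul]
    rw [h0]
    exact Ideal.zero_mem _
  | add p q hp hq =>
    have h0 : MvPolynomial.aeval Y (p + q) - MvPolynomial.aeval X (p + q) -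
        ∑ j, MvPolynomial.aeval X (MvPolynomial.pderiv j (p + q)) * (Y j - X j) =
        (MvPolynomial.aeval Y p - MvPolynomial.aeval X p -
          ∑ j, MvPolynomial.aeval X (MvPolynomial.pderiv j p) * (Y j - X j)) +
        (MvPolynomial.aeval Y q - MvPolynomial.aeval X q -
          ∑ j, MvPolynomial.aeval X (MvPolynomial.pderiv j q) * (Y j - X j)) := by
      have h1 : ∑ j, MvPolynomial.aeval X (MvPolynomial.pderiv j (p + q)) * (Y j - X j) =
          ∑ j, MvPolynomial.aeval X (MvPolynomial.pderiv j p) * (Y j - X j) +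
          ∑ j, MvPolynomial.aeval X (MvPolynomial.pderiv j q) * (Y j - X j) := by
        rw [← Finset.sum_add_distrib]
        refine Finset.sum_congr rfl fun j _ => ?_
        rw [map_add, map_add, add_mul]
      rw [h1, map_add, map_add]
      ring
    rw [h0]
    exact Ideal.add_mem _ hp hq
  | mul_X p i hp =>
    set a := MvPolynomial.aeval X p with ha
    set b := MvPolynomial.aeval Y p with hb
    set s := ∑ j, MvPolynomial.aeval X (MvPolynomial.pderiv j p) * (Y j - X j) with hs
    have hsI : s ∈ I := Ideal.sum_mem _ fun j _ => Ideal.mul_mem_left _ _ (h j)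
    have h0 : MvPolynomial.aeval Y (p * MvPolynomial.X i) -
        MvPolynomial.aeval X (p * MvPolynomial.X i) -
        ∑ j, MvPolynomial.aeval X (MvPolynomial.pderiv j (p * MvPolynomial.X i)) * (Y j - X j) =
        X i * (b - a - s) + (b - a) * (Y i - X i) := by
      have h1 : ∑ j, MvPolynomial.aeval X (MvPolynomial.pderiv j (p * MvPolynomial.X i)) *
          (Y j - X j) = X i * s + a * (Y i - X i) := by
        have h2 : ∀ j, MvPolynomial.aeval X (MvPolynomial.pderiv j (p * MvPolynomial.X i)) *
            (Y j - X j) = X i * (MvPolynomial.aeval X (MvPolynomial.pderiv j p) * (Y j - X j)) +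
            (if i = j then a * (Y i - X i) else 0) := by
          intro j
          rw [Derivation.leibniz, smul_eq_mul, smul_eq_mul, map_add, map_mul, map_mul,
            MvPolynomial.aeval_X, MvPolynomial.pderiv_X]
          by_cases hij : i = j
          · subst hij
            rw [if_pos rfl, Pi.single_eq_same, map_one]
            ring
          · rw [if_neg hij, Pi.single_eq_of_ne hij, map_zero]
            ring
        rw [Finset.sum_congr rfl fun j _ => h2 j, Finset.sum_add_distrib, ← Finset.mul_sum,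
          Finset.sum_ite_eq, if_pos (Finset.mem_univ _)]
      rw [h1, map_mul, map_mul, MvPolynomial.aeval_X, MvPolynomial.aeval_X, ← ha, ← hb]
      ring
    rw [h0]
    refine Ideal.add_mem _ (Ideal.mul_mem_left _ _ hp) ?_
    have h2 : b - a ∈ I := by
      have h3 : b - a = (b - a - s) + s := by ring
      rw [h3]
      exact Ideal.add_mem _ (Ideal.pow_le_self two_ne_zero hp) hsI
    rw [pow_two]
    exact Ideal.mul_mem_mul h2 (h i)

theorem mem_sq {ι : Type} [Fintype ι] (d : ι → A) (x : A)
    (hx : x ∈ (Ideal.span (Set.range d)) ^ 2) :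
    ∃ c : ι → A, (∀ b, c b ∈ Ideal.span (Set.range d)) ∧ x = ∑ b, c b * d b := by
  rw [pow_two] at hx
  refine Submodule.mul_induction_on hx ?_ ?_
  · intro u hu v hv
    obtain ⟨e, he⟩ := Ideal.mem_span_range_iff_exists_fun.1 hv
    refine ⟨fun b => u * e b, fun b => Ideal.mul_mem_right _ _ hu, ?_⟩
    rw [← he, Finset.mul_sum]
    refine Finset.sum_congr rfl fun b _ => ?_
    ring
  · rintro u v ⟨c, hc, hu⟩ ⟨e, he, hv⟩
    refine ⟨fun b => c b + e b, fun b => Ideal.add_mem _ (hc b) (he b), ?_⟩
    rw [hu, hv, ← Finset.sum_add_distrib]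
    refine Finset.sum_congr rfl fun b _ => ?_
    ring

end

theorem hen : HenStmt := by
  intro n r P A _ _ M hM X Y hXY hdet hS
  classical
  set d : Fin n × Fin r → A := fun b => Y b.1 b.2 - X b.1 b.2 with hd
  set I : Ideal A := Ideal.span (Set.range d) with hI
  have hIM : I ≤ M := by
    rw [hI, Ideal.span_le]
    rintro _ ⟨b, rfl⟩
    exact hXY b.1 b.2
  have hdI : ∀ b, d b ∈ I := fun b => Ideal.subset_span ⟨b, rfl⟩
  set J := jac P X with hJ
  have h1 : ∀ a, (J *ᵥ d) a ∈ I ^ 2 := by
    intro a
    have h2 : ∑ t, (MvPolynomial.aeval (Y t) (P a) - MvPolynomial.aeval (X t) (P a) -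
        ∑ j, MvPolynomial.aeval (X t) (MvPolynomial.pderiv j (P a)) * (Y t j - X t j)) ∈ I ^ 2 :=
      Ideal.sum_mem _ fun t _ => taylor_mem I (X t) (Y t) (fun i => hdI (t, i)) (P a)
    rw [Finset.sum_sub_distrib, Finset.sum_sub_distrib, hS a, sub_self, zero_sub] at h2
    have h3 := (Submodule.neg_mem_iff _).1 h2
    have h4 : (J *ᵥ d) a = ∑ t, ∑ j, MvPolynomial.aeval (X t) (MvPolynomial.pderiv j (P a)) *
        (Y t j - X t j) := by
      rw [Matrix.mulVec, dotProduct, Fintype.sum_prod_type]
      rfl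
    rw [h4]
    exact h3
  have h2 : ∀ b, J.det * d b ∈ I ^ 2 := by
    intro b
    have h3 : J.adjugate *ᵥ (J *ᵥ d) = J.det • d := by
      rw [Matrix.mulVec_mulVec, Matrix.adjugate_mul, Matrix.smul_mulVec, Matrix.one_mulVec]
    have h4 : J.det * d b = (J.adjugate *ᵥ (J *ᵥ d)) b := by
      rw [h3]
      rfl
    rw [h4, Matrix.mulVec, dotProduct]
    exact Ideal.sum_mem _ fun a _ => Ideal.mul_mem_left _ _ (h1 a)
  choose c hc hc2 using fun b => mem_sq d (J.det * d b) (h2 b)
  set N : Matrix (Fin n × Fin r) (Fin n × Fin r) A := J.det • 1 - Matrix.of c with hN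
  have h3 : N *ᵥ d = 0 := by
    funext b
    rw [hN, Matrix.sub_mulVec, Matrix.smul_mulVec, Matrix.one_mulVec]
    change J.det * d b - (Matrix.of c *ᵥ d) b = 0
    rw [hc2 b]
    exact sub_self _
  have h4 : N.det ≠ 0 := by
    intro h0
    have h5 : (Ideal.Quotient.mk M) N.det = 0 := by rw [h0, map_zero]
    rw [RingHom.map_det] at h5
    have h6 : (Ideal.Quotient.mk M).mapMatrix N = (Ideal.Quotient.mk M J.det) • 1 := by
      ext b b'
      have h7 : (Ideal.Quotient.mk M) (c b b') = 0 :=
        Ideal.Quotient.eq_zero_iff_mem.2 (hIM (hc b b'))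
      rw [hN, RingHom.mapMatrix_apply, Matrix.map_apply, Matrix.sub_apply, Matrix.smul_apply,
        Matrix.of_apply, map_sub, h7, sub_zero, smul_eq_mul, map_mul, Matrix.smul_apply,
        smul_eq_mul]
      congr 1
      rw [Matrix.one_apply, Matrix.one_apply]
      split_ifs
      · exact map_one _
      · exact map_zero _
    rw [h6, Matrix.det_smul, Matrix.det_one, mul_one] at h5
    haveI : IsDomain (A ⧸ M) := Ideal.Quotient.isDomain M
    exact hdet (Ideal.Quotient.eq_zero_iff_mem.1 (eq_zero_of_pow_eq_zero h5))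
  have h5 := Matrix.eq_zero_of_mulVec_eq_zero h4 h3
  funext t i
  have h6 := congrFun h5 (t, i)
  exact sub_eq_zero.1 h6

end

end Pool.Agent.THX.H65
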